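import Pool.Agent.H6.LD.STR

/-! # Crew LD: assembly with hypotheses -/

set_option autoImplicit false
open Filter Topology MeasureTheory

namespace Pool.Agent.H6.LD

theorem asm (hLIM : S_LIM) (hBND : S_BND) (hDIF : S_DIF) (hEXC : S_EXC) :
    ∃ d : ℝ, 0.02 ≤ d ∧ d ≤ 0.31 ∧
      HasLD (fun k => k ∈ Pool.Agent.Results.MP_d5a689_co.ExactlyTwo.A) d := by
  obtain ⟨d, hd, -⟩ := hLIM
  obtain ⟨h1, h2⟩ := hBND d hd
  refine ⟨d, h1, h2, ?_⟩
  refine hDIF hEXC _ Good 24 ?_ ?_ d hd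
  · intro k hk h
    exact (STR.t_STR k hk).1 h
  · intro k hk h hex
    exact (STR.t_STR k hk).2 h hex

end Pool.Agent.H6.LD
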