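import Pool.Agent.H6.LD.Stm

/-! # Crew LD: the density of `GoodY y` when the numbers `1 / log p` are linearly independent -/

set_option autoImplicit false
open Filter Topology MeasureTheory

namespace Pool.Agent.H6.LD

/-- the reciprocals of the logarithms of the primes are linearly independent over the rationals -/
def LinIndep : Prop := ∀ (s : Finset ℕ) (n : ℕ → ℤ), (∀ p ∈ s, p.Prime) →
  ∑ p ∈ s, (n p : ℝ) / Real.log p = 0 → ∀ p ∈ s, n p = 0

noncomputable def MM (s : Finset ℕ) : AddSubgroup ℝ := s.sup (fun p => Mw (Real.log p))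

noncomputable def hh (s : Finset ℕ) (t : ℝ) : ℂ := ∏ p ∈ s, (1 - ind (Real.log p) (aa p) t)

lemma mem_MM (s : Finset ℕ) : ∀ x ∈ MM s, ∃ n : ℕ → ℤ, x = ∑ p ∈ s, (n p : ℝ) * (2 * Real.pi / Real.log p) := by
  classical
  unfold MM
  induction s using Finset.induction_on with
  | empty =>
    intro x hx
    rw [Finset.sup_empty, AddSubgroup.mem_bot] at hx
    exact ⟨fun _ => 0, by simp [hx]⟩
  | insert q s hq ih =>
    intro x hx
    rw [Finset.sup_insert, AddSubgroup.mem_sup] at hx
    obtain ⟨u, hu, v, hv, rfl⟩ := hx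
    obtain ⟨n, rfl⟩ := ih v hv
    obtain ⟨m, hm⟩ := AddSubgroup.mem_zmultiples_iff.1 hu
    refine ⟨Function.update n q m, ?_⟩
    rw [Finset.sum_insert hq, Function.update_self, ← hm]
    congr 1
    · simp
    · apply Finset.sum_congr rfl
      intro p hp
      rw [Function.update_of_ne (fun h : p = q => hq (by rw [← h]; exact hp))]

lemma inf_MM (hLI : LinIndep) (s : Finset ℕ) (q : ℕ) (hs : ∀ p ∈ s, p.Prime) (hqp : q.Prime)
    (hq : q ∉ s) : Mw (Real.log q) ⊓ MM s = ⊥ := by
  classical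
  rw [AddSubgroup.eq_bot_iff_forall]
  intro x hx
  obtain ⟨h1, h2⟩ := AddSubgroup.mem_inf.1 hx
  obtain ⟨n, hn⟩ := mem_MM s x h2
  obtain ⟨m, hm⟩ := AddSubgroup.mem_zmultiples_iff.1 h1
  have hpi : (2 * Real.pi) ≠ 0 := by positivity
  have h3 : ∑ p ∈ insert q s, ((Function.update n q (-m) p : ℤ) : ℝ) / Real.log p = 0 := by
    rw [Finset.sum_insert hq, Function.update_self]
    have h4 : ∑ p ∈ s, ((Function.update n q (-m) p : ℤ) : ℝ) / Real.log p =
        ∑ p ∈ s, (n p : ℝ) / Real.log p := by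
      apply Finset.sum_congr rfl
      intro p hp
      rw [Function.update_of_ne (fun h : p = q => hq (by rw [← h]; exact hp))]
    rw [h4]
    have h5 : (2 * Real.pi) * ∑ p ∈ s, (n p : ℝ) / Real.log p = x := by
      rw [hn, Finset.mul_sum]
      apply Finset.sum_congr rfl
      intro p _
      ring
    have h6 : (2 * Real.pi) * ((m : ℝ) / Real.log q) = x := by
      rw [← hm, zsmul_eq_mul]
      ring
    have h7 : (2 * Real.pi) * (((-m : ℤ) : ℝ) / Real.log q + ∑ p ∈ s, (n p : ℝ) / Real.log p) = 0 := by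
      rw [mul_add, h5]
      push_cast
      have h8 : (2 * Real.pi) * (-(m : ℝ) / Real.log q) = -x := by
        rw [← h6]
        ring
      rw [h8]
      ring
    exact (mul_eq_zero.1 h7).resolve_left hpi
  have h4 := hLI (insert q s) _ (by
    intro p hp
    rcases Finset.mem_insert.1 hp with rfl | hp
    · exact hqp
    · exact hs p hp) h3 q (Finset.mem_insert_self _ _)
  rw [Function.update_self] at h4
  have h5 : m = 0 := by omega
  rw [h5, zero_zsmul] at hm
  exact hm.symm

lemma AP_hh (hAP2 : S_AP2) (hAP3 : S_AP3) (hIND : S_IND) (hAAB : S_AAB) (hLI : LinIndep)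
    (h1AP : AP (⊥ : AddSubgroup ℝ) (fun _ => 1)) (h1M : HasMean (fun _ => 1) 1) (s : Finset ℕ)
    (hs : ∀ p ∈ s, p.Prime) :
    AP (MM s) (hh s) ∧ HasMean (hh s) (∏ p ∈ s, (1 - (aa p : ℂ))) := by
  classical
  induction s using Finset.induction_on with
  | empty =>
    have h1 : hh ∅ = fun _ => 1 := by
      funext t
      simp [hh]
    have h2 : MM ∅ = ⊥ := by simp [MM]
    rw [h1, h2, Finset.prod_empty]
    exact ⟨h1AP, h1M⟩
  | insert q s hq ih =>
    obtain ⟨ih1, ih2⟩ := ih (fun p hp => hs p (Finset.mem_insert_of_mem hp))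
    have hqp := hs q (Finset.mem_insert_self _ _)
    have hlq : 0 < Real.log q := Real.log_pos (by exact_mod_cast hqp.one_lt)
    obtain ⟨ha1, -, ha2⟩ := hAAB q hqp
    obtain ⟨hi1, hi2⟩ := hIND (Real.log q) (aa q) hlq ha1 ha2
    obtain ⟨hj1, hj2⟩ := hAP3 _ _ hi1
    have hj2 := hj2 _ hi2
    obtain ⟨hk1, hk2⟩ := hAP2 _ _ _ _ hj1 ih1
    have hk2 := hk2 (inf_MM hLI s q (fun p hp => hs p (Finset.mem_insert_of_mem hp)) hqp hq) _ _ hj2 ih2
    have e1 : hh (insert q s) = (fun t => 1 - ind (Real.log q) (aa q) t) * hh s := by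
      funext t
      simp only [hh, Finset.prod_insert hq, Pi.mul_apply]
    have e2 : MM (insert q s) = Mw (Real.log q) ⊔ MM s := by
      simp only [MM, Finset.sup_insert]
    rw [e1, e2, Finset.prod_insert hq]
    exact ⟨hk1, hk2⟩

lemma AP_one : AP (⊥ : AddSubgroup ℝ) (fun _ => 1) := by
  refine ⟨measurable_const, ⟨1, fun t => by simp⟩, ?_⟩
  intro ε hε
  refine ⟨fun _ => 1, ?_, 0, ?_⟩
  · apply Submodule.subset_span
    refine ⟨0, by simp, ?_⟩
    funext t
    simp [expo]
  · intro T hT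
    simp only [sub_self, norm_zero, intervalIntegral.integral_zero]
    positivity

lemma mean_one : HasMean (fun _ => 1) 1 := by
  unfold HasMean
  have h : (fun T : ℝ => (((1 / T : ℝ) : ℂ) * ∫ _ in (0 : ℝ)..T, (1 : ℂ))) =ᶠ[atTop] fun _ => 1 := by
    filter_upwards [eventually_gt_atTop (0 : ℝ)] with T hT
    rw [intervalIntegral.integral_const, sub_zero]
    simp only [Complex.real_smul, mul_one]
    push_cast
    have : (T : ℂ) ≠ 0 := by exact_mod_cast hT.ne'
    field_simp
  exact Tendsto.congr' h.symm tendsto_const_nhds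

open scoped Classical in
theorem t_CND (hAP2 : S_AP2) (hAP3 : S_AP3) (hIND : S_IND) (hWIN : S_WIN) (hAAB : S_AAB)
    (hLOG : S_LOG) (hHME : S_HME) (hLI : LinIndep) (y : ℕ) :
    HasLD (GoodY y) (∏ p ∈ (Finset.range (y + 1)).filter Nat.Prime, (1 - aa p)) := by
  set s := (Finset.range (y + 1)).filter Nat.Prime with hs
  have hsp : ∀ p ∈ s, p.Prime := fun p hp => (Finset.mem_filter.1 hp).2
  obtain ⟨h1, h2⟩ := AP_hh hAP2 hAP3 hIND hAAB hLI AP_one mean_one s hsp
  apply hLOG
  push_cast
  refine hHME (hh s) _ (Real.log (y + 1)) h1.meas ?_ h1.bdd ?_ ?_ _ h2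
  · have hm : Measurable (fun t : ℝ => ⌊Real.exp t⌋₊) :=
      Nat.measurable_floor.comp Real.measurable_exp
    exact (measurable_of_countable (fun k : ℕ => if GoodY y k then (1 : ℂ) else 0)).comp hm
  · refine ⟨1, fun t => ?_⟩
    split_ifs <;> simp
  · intro t ht
    have hwin : ∀ p ∈ s, (Bd p ⌊Real.exp t⌋₊ ↔ Int.fract (t / Real.log p) < aa p) := by
      intro p hp
      apply hWIN p (hsp p hp)
      refine le_trans ?_ ht
      apply Real.log_le_log
      · exact_mod_cast (hsp p hp).pos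
      · have := Finset.mem_range.1 (Finset.mem_filter.1 hp).1
        exact_mod_cast this.le
    unfold hh
    by_cases hg : GoodY y ⌊Real.exp t⌋₊
    · rw [if_pos hg]
      apply Finset.prod_eq_one
      intro p hp
      have hpy : p ≤ y := by
        have := Finset.mem_range.1 (Finset.mem_filter.1 hp).1
        omega
      have h3 := hg p (hsp p hp) hpy
      rw [hwin p hp] at h3
      unfold ind
      rw [if_neg h3, sub_zero]
    · rw [if_neg hg]
      unfold GoodY at hg
      push Not at hg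
      obtain ⟨p, hp, hpy, hb⟩ := hg
      have hps : p ∈ s := Finset.mem_filter.2 ⟨Finset.mem_range.2 (by omega), hp⟩
      apply Finset.prod_eq_zero hps
      rw [hwin p hps] at hb
      unfold ind
      rw [if_pos hb, sub_self]

end Pool.Agent.H6.LD
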