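import Pool.Agent.H6.LD.Stm

/-! # Crew LD: part ES2 -/

set_option autoImplicit false
open Filter Topology MeasureTheory

namespace Pool.Agent.H6.LD.ES2

open Pool.Agent.H6.LD

theorem expo_mul (l l' : ℝ) : expo l * expo l' = expo (l + l') := by
  funext t
  simp only [expo, Pi.mul_apply, ← Complex.exp_add]
  congr 1
  push_cast
  ring

theorem mem_mul {M M' : AddSubgroup ℝ} {q q' : ℝ → ℂ} (hq : q ∈ ES M) (hq' : q' ∈ ES M') :
    q * q' ∈ ES (M ⊔ M') := by
  unfold ES at hq hq'
  induction hq using Submodule.span_induction with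
  | mem x hx =>
    obtain ⟨l, hl, rfl⟩ := hx
    induction hq' using Submodule.span_induction with
    | mem y hy =>
      obtain ⟨l', hl', rfl⟩ := hy
      rw [expo_mul]
      exact Submodule.subset_span ⟨l + l', AddSubgroup.add_mem_sup hl hl', rfl⟩
    | zero => rw [mul_zero]; exact Submodule.zero_mem _
    | add y z _ _ hy hz => rw [mul_add]; exact Submodule.add_mem _ hy hz
    | smul c y _ hy => rw [mul_smul_comm]; exact Submodule.smul_mem _ _ hy
  | zero => rw [zero_mul]; exact Submodule.zero_mem _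
  | add y z _ _ hy hz => rw [add_mul]; exact Submodule.add_mem _ hy hz
  | smul c y _ hy => rw [smul_mul_assoc]; exact Submodule.smul_mem _ _ hy

theorem HasMean.add {f g : ℝ → ℂ} {a b : ℂ} (hf : Continuous f) (hg : Continuous g)
    (h1 : HasMean f a) (h2 : HasMean g b) : HasMean (f + g) (a + b) := by
  unfold HasMean at *
  have h3 := Tendsto.add h1 h2
  refine h3.congr ?_
  intro T
  have h4 : ∫ t in (0 : ℝ)..T, (f + g) t = (∫ t in (0 : ℝ)..T, f t) + ∫ t in (0 : ℝ)..T, g t :=
    intervalIntegral.integral_add (hf.intervalIntegrable _ _) (hg.intervalIntegrable _ _)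
  rw [h4, mul_add]

theorem HasMean.smul {f : ℝ → ℂ} {a : ℂ} (c : ℂ) (h1 : HasMean f a) : HasMean (c • f) (c * a) := by
  unfold HasMean at *
  have h3 := Tendsto.const_mul c h1
  refine h3.congr ?_
  intro T
  have h4 : ∫ t in (0 : ℝ)..T, (c • f) t = c * ∫ t in (0 : ℝ)..T, f t := by
    rw [← intervalIntegral.integral_const_mul]
    rfl
  rw [h4]
  ring

theorem HasMean.zero : HasMean 0 0 := by
  unfold HasMean
  simp

theorem HasMean.unique {f : ℝ → ℂ} {a b : ℂ} (h1 : HasMean f a) (h2 : HasMean f b) : a = b :=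
  tendsto_nhds_unique h1 h2

theorem mean_expo (l : ℝ) : HasMean (expo l) (if l = 0 then 1 else 0) := by
  split_ifs with h
  · subst h
    unfold HasMean
    have h1 : (fun T : ℝ => (((1 / T : ℝ) : ℂ) * ∫ t in (0 : ℝ)..T, expo 0 t)) =ᶠ[atTop] fun _ => 1 := by
      filter_upwards [eventually_gt_atTop (0 : ℝ)] with T hT
      have h2 : ∫ t in (0 : ℝ)..T, expo 0 t = (T : ℂ) := by
        have : ∀ t, expo 0 t = 1 := by
          intro t
          simp [expo]
        simp only [this]
        rw [intervalIntegral.integral_const, sub_zero]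
        simp
      rw [h2]
      push_cast
      have : (T : ℂ) ≠ 0 := by exact_mod_cast hT.ne'
      field_simp
    exact Tendsto.congr' h1.symm tendsto_const_nhds
  · unfold HasMean
    have hl : ((l : ℂ) * Complex.I) ≠ 0 :=
      mul_ne_zero (by exact_mod_cast h) Complex.I_ne_zero
    have h1 : ∀ T : ℝ, ∫ t in (0 : ℝ)..T, expo l t =
        (Complex.exp ((l : ℂ) * Complex.I * T) - 1) / ((l : ℂ) * Complex.I) := by
      intro T
      have h2 : ∀ t : ℝ, expo l t = Complex.exp ((l : ℂ) * Complex.I * (t : ℂ)) := by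
        intro t
        unfold expo
        congr 1
        push_cast
        ring
      simp only [h2]
      rw [integral_exp_mul_complex hl]
      simp
    simp only [h1]
    rw [tendsto_zero_iff_norm_tendsto_zero]
    have h3 : Tendsto (fun T : ℝ => (1 / T) * (2 / ‖(l : ℂ) * Complex.I‖)) atTop (𝓝 0) := by
      have h4 : Tendsto (fun T : ℝ => 1 / T) atTop (𝓝 0) := by
        simpa using tendsto_inv_atTop_zero (𝕜 := ℝ)
      simpa using h4.mul_const (2 / ‖(l : ℂ) * Complex.I‖)
    refine squeeze_zero' (Eventually.of_forall fun T => norm_nonneg _) ?_ h3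
    filter_upwards [eventually_gt_atTop (0 : ℝ)] with T hT
    rw [norm_mul, norm_div, Complex.norm_real, Real.norm_eq_abs, abs_of_pos (by positivity : (0 : ℝ) < 1 / T)]
    apply mul_le_mul_of_nonneg_left _ (by positivity)
    apply div_le_div_of_nonneg_right _ (norm_nonneg _)
    refine (norm_sub_le _ _).trans ?_
    have h5 : ‖Complex.exp ((l : ℂ) * Complex.I * T)‖ = 1 := by
      have h6 : (l : ℂ) * Complex.I * T = ((l * T : ℝ) : ℂ) * Complex.I := by
        push_cast
        ring
      rw [h6, Complex.norm_exp_ofReal_mul_I]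
    rw [h5, norm_one]
    norm_num

theorem key (hES1 : S_ES1) {M M' : AddSubgroup ℝ} (hMM : M ⊓ M' = ⊥) {q q' : ℝ → ℂ} (hq : q ∈ ES M)
    (hq' : q' ∈ ES M') : ∃ m m', HasMean q m ∧ HasMean q' m' ∧ HasMean (q * q') (m * m') := by
  have hq2 := hq
  unfold ES at hq2
  induction hq2 using Submodule.span_induction with
  | mem x hx =>
    obtain ⟨l, hl, rfl⟩ := hx
    have hq3 := hq'
    unfold ES at hq3
    induction hq3 using Submodule.span_induction with
    | mem y hy =>
      obtain ⟨l', hl', rfl⟩ := hy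
      refine ⟨_, _, mean_expo l, mean_expo l', ?_⟩
      rw [expo_mul]
      have h1 := mean_expo (l + l')
      have h2 : (if l + l' = 0 then (1 : ℂ) else 0) = (if l = 0 then 1 else 0) * (if l' = 0 then 1 else 0) := by
        by_cases h : l + l' = 0
        · have h3 : l ∈ M ⊓ M' := by
            refine AddSubgroup.mem_inf.2 ⟨hl, ?_⟩
            have : l = -l' := by linarith
            rw [this]
            exact M'.neg_mem hl'
          rw [hMM, AddSubgroup.mem_bot] at h3
          have h4 : l' = 0 := by linarith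
          rw [if_pos h, if_pos h3, if_pos h4, mul_one]
        · rw [if_neg h]
          by_cases h3 : l = 0
          · have h4 : l' ≠ 0 := fun h5 => h (by rw [h3, h5, add_zero])
            rw [if_neg h4, mul_zero]
          · rw [if_neg h3, zero_mul]
      rw [h2] at h1
      exact h1
    | zero => exact ⟨_, 0, mean_expo l, HasMean.zero, by rw [mul_zero, mul_zero]; exact HasMean.zero⟩
    | add y z hy hz ihy ihz =>
      obtain ⟨m, m', h1, h2, h3⟩ := ihy hy
      obtain ⟨n, n', g1, g2, g3⟩ := ihz hz
      have cy := (hES1 M' y hy).1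
      have cz := (hES1 M' z hz).1
      have ce := (hES1 M (expo l) hq).1
      have hmn := HasMean.unique h1 g1
      subst hmn
      refine ⟨m, m' + n', h1, HasMean.add cy cz h2 g2, ?_⟩
      rw [mul_add, mul_add]
      exact HasMean.add (ce.mul cy) (ce.mul cz) h3 g3
    | smul c y hy ihy =>
      obtain ⟨m, m', h1, h2, h3⟩ := ihy hy
      refine ⟨m, c * m', h1, HasMean.smul c h2, ?_⟩
      have h4 := HasMean.smul c h3
      have h5 : c * (m * m') = m * (c * m') := by ring
      rw [mul_smul_comm, ← h5]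
      exact h4
  | zero =>
    obtain ⟨m', hm'⟩ := (hES1 M' q' hq').2.2
    exact ⟨0, m', HasMean.zero, hm', by rw [zero_mul, zero_mul]; exact HasMean.zero⟩
  | add y z hy hz ihy ihz =>
    obtain ⟨m, m', h1, h2, h3⟩ := ihy hy
    obtain ⟨n, n', g1, g2, g3⟩ := ihz hz
    have cy := (hES1 M y hy).1
    have cz := (hES1 M z hz).1
    have ce := (hES1 M' q' hq').1
    have hmn := HasMean.unique h2 g2
    subst hmn
    refine ⟨m + n, m', HasMean.add cy cz h1 g1, h2, ?_⟩
    rw [add_mul, add_mul]
    exact HasMean.add (cy.mul ce) (cz.mul ce) h3 g3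
  | smul c y hy ihy =>
    obtain ⟨m, m', h1, h2, h3⟩ := ihy hy
    refine ⟨c * m, m', HasMean.smul c h1, h2, ?_⟩
    have h4 := HasMean.smul c h3
    rw [smul_mul_assoc, mul_assoc]
    exact h4

theorem t_ES2 (hES1 : S_ES1) : S_ES2 := by
  intro M M' q q' hq hq'
  refine ⟨mem_mul hq hq', ?_⟩
  intro hMM m m' hm hm'
  obtain ⟨n, n', h1, h2, h3⟩ := key hES1 hMM hq hq'
  rw [HasMean.unique hm h1, HasMean.unique hm' h2]
  exact h3

end Pool.Agent.H6.LD.ES2
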