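import Mathlib

/-!
# Crew LD (MP_d5a689_co, Q2): the logarithmic density of the lengths with exactly two weakly
consecutive permutations exists

Definitions and statements of the parts; the proof of each part is in its docstring.
-/

set_option autoImplicit false
open Filter Topology MeasureTheory

namespace Pool.Agent.H6.LD

/-- `k` lies in one of the windows `[p ^ j, p ^ j + p ^ (j - 1))` -/
def Bd (p k : ℕ) : Prop := ∃ j, 1 ≤ j ∧ p ^ j ≤ k ∧ k < p ^ j + p ^ (j - 1)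

/-- in no window of a prime -/
def Good (k : ℕ) : Prop := ∀ p, p.Prime → ¬ Bd p k

/-- in no window of a prime `p ≤ y` -/
def GoodY (y k : ℕ) : Prop := ∀ p, p.Prime → p ≤ y → ¬ Bd p k

/-- exceptional lengths -/
def Exc (k : ℕ) : Prop := (k + 1).Prime ∨ (k / 2).Prime ∨ ((k + 1) / 2).Prime

open scoped Classical in
/-- the sum of `1 / k` over the `k ≤ x` with the property `E` -/
noncomputable def LS (E : ℕ → Prop) (x : ℕ) : ℝ := ∑ k ∈ (Finset.Icc 1 x).filter E, (1 : ℝ) / k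

/-- the set `{k : E k}` has the logarithmic density `d` -/
def HasLD (E : ℕ → Prop) (d : ℝ) : Prop :=
  Tendsto (fun x : ℕ => (1 / Real.log x) * LS E x) atTop (𝓝 d)

/-- mean value of a function on `[0, ∞)` -/
def HasMean (f : ℝ → ℂ) (m : ℂ) : Prop :=
  Tendsto (fun T : ℝ => ((1 / T : ℝ) : ℂ) * ∫ t in (0 : ℝ)..T, f t) atTop (𝓝 m)

/-- `t ↦ e^{i l t}` -/
noncomputable def expo (l : ℝ) : ℝ → ℂ := fun t => Complex.exp (((l * t : ℝ) : ℂ) * Complex.I)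

/-- exponential sums with frequencies in `M` -/
def ES (M : AddSubgroup ℝ) : Submodule ℂ (ℝ → ℂ) := Submodule.span ℂ (expo '' (M : Set ℝ))

/-- almost periodic in the mean with frequencies in `M` -/
structure AP (M : AddSubgroup ℝ) (f : ℝ → ℂ) : Prop where
  meas : Measurable f
  bdd : ∃ C : ℝ, ∀ t, ‖f t‖ ≤ C
  app : ∀ ε : ℝ, 0 < ε → ∃ q ∈ ES M, ∃ T0 : ℝ, ∀ T, T0 ≤ T →
    ∫ t in (0 : ℝ)..T, ‖f t - q t‖ ≤ ε * T

/-- `log (1 + 1 / p) / log p` -/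
noncomputable def aa (p : ℕ) : ℝ := (Real.log ((p + 1 : ℕ) : ℝ) - Real.log p) / Real.log p

open scoped Classical in
/-- indicator function of a periodic set of intervals -/
noncomputable def ind (w a : ℝ) (t : ℝ) : ℂ := if Int.fract (t / w) < a then 1 else 0

/-- the multiples of `2 π / w` -/
noncomputable def Mw (w : ℝ) : AddSubgroup ℝ := AddSubgroup.zmultiples (2 * Real.pi / w)

/-- **ES1** (60 lines).  `Submodule.span_induction`.  The mean of `expo l` is `1` if `l = 0`, and `0`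
otherwise: the integral is `(e^{ilT} - 1) / (i l)` (`integral_exp_mul_complex`), bounded. -/
def S_ES1 : Prop := ∀ (M : AddSubgroup ℝ) (q : ℝ → ℂ), q ∈ ES M →
  Continuous q ∧ (∃ C : ℝ, ∀ t, ‖q t‖ ≤ C) ∧ ∃ m, HasMean q m

/-- **ES2** (90 lines).  `expo l * expo l' = expo (l + l')`; two span inductions.  For the means: fix first
`q = expo l`, `q' = expo l'`; if `M ⊓ M' = ⊥` then `l + l' = 0` iff `l = 0` and `l' = 0` (as `l = -l'` is in both).
Statement for the induction: `∀ q ∈ ES M, ∀ q' ∈ ES M', ∃ m m', HasMean q m ∧ HasMean q' m' ∧ HasMean (q * q') (m * m')`,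
first on `q'` for fixed `q = expo l`, then on `q` (means are unique: `tendsto_nhds_unique`; `S_ES1` gives continuity,
needed for `∫ (f + g)`). -/
def S_ES2 : Prop := ∀ (M M' : AddSubgroup ℝ) (q q' : ℝ → ℂ), q ∈ ES M → q' ∈ ES M' →
  q * q' ∈ ES (M ⊔ M') ∧ (M ⊓ M' = ⊥ → ∀ m m', HasMean q m → HasMean q' m' → HasMean (q * q') (m * m'))

/-- **AP1** (80 lines, hypothesis ES1).  (1) If `∫_0^T ‖f - q‖ ≤ ε T` for large `T` then the averages of `f` and `q` differ by at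
most `ε`; so the averages of `f` are Cauchy along `atTop` (`cauchySeq`/`CauchySeq` on `ℝ`, `ℂ` complete;
or `cauchy_map_iff_exists_tendsto`).  (2) the same inequality for the limits. -/
def S_AP1 : Prop := ∀ (M : AddSubgroup ℝ) (f : ℝ → ℂ), AP M f →
  (∃ m, HasMean f m) ∧ ∀ (q : ℝ → ℂ) (ε : ℝ), q ∈ ES M → (∃ T0 : ℝ, ∀ T, T0 ≤ T →
    ∫ t in (0 : ℝ)..T, ‖f t - q t‖ ≤ ε * T) → ∀ m n, HasMean f m → HasMean q n → ‖m - n‖ ≤ ε

/-- **AP2** (120 lines, hypotheses ES1 ES2 AP1).  Given `ε`: `‖g‖ ≤ C` (`C ≥ 1`), take `q` for `f` and `ε / (2 C)`, `B ≥ 1` a bound of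
`q`, and `q'` for `g` and `ε / (2 B)`: `‖f g - q q'‖ ≤ ‖f - q‖ C + B ‖g - q'‖`.  The means: `mean (f g)` is within `ε` of
`mean (q q') = mean q * mean q'`, and `mean q → mean f`, `mean q' → mean g` (`‖mean g‖ ≤ C`, `‖mean q‖ ≤ B`; choose `q'` after
`q`): `|ab - nn'| ≤ |a - n| |b| + |n| |b - n'| ≤ ε`. -/
def S_AP2 : Prop := ∀ (M M' : AddSubgroup ℝ) (f g : ℝ → ℂ), AP M f → AP M' g →
  AP (M ⊔ M') (f * g) ∧ (M ⊓ M' = ⊥ → ∀ a b, HasMean f a → HasMean g b → HasMean (f * g) (a * b))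

/-- **AP3** (40 lines).  Constants and differences: `1 = expo 0`. -/
def S_AP3 : Prop := ∀ (M : AddSubgroup ℝ) (f : ℝ → ℂ), AP M f →
  AP M (fun t => 1 - f t) ∧ ∀ a, HasMean f a → HasMean (fun t => 1 - f t) (1 - a)

/-- **PER** (80 lines).  For a `w`-periodic measurable bounded `g : ℝ → ℝ`, `g ≥ 0`: `∫_0^T g ≤ (T / w + 1) ∫_0^w g`
(`T ≤ ⌈T/w⌉ w`, `Function.Periodic.intervalIntegral_add_zsmul_eq` or `Function.Periodic.integral_le..`; see
`Mathlib/MeasureTheory/Integral/IntervalIntegral/Periodic.lean`), and the mean of a complex bounded measurable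
`w`-periodic function is `w⁻¹ ∫_0^w`. -/
def S_PER : Prop := ∀ (w : ℝ), 0 < w → (∀ g : ℝ → ℝ, Measurable g → (∃ C : ℝ, ∀ t, |g t| ≤ C) → (∀ t, 0 ≤ g t) →
    (∀ t, g (t + w) = g t) → ∀ T, 0 ≤ T → ∫ t in (0 : ℝ)..T, g t ≤ (T / w + 1) * ∫ t in (0 : ℝ)..w, g t) ∧
  ∀ g : ℝ → ℂ, Measurable g → (∃ C : ℝ, ∀ t, ‖g t‖ ≤ C) → (∀ t, g (t + w) = g t) →
    HasMean g (((1 / w : ℝ) : ℂ) * ∫ t in (0 : ℝ)..w, g t)

/-- **FOU** (100 lines).  Density of the trigonometric polynomials in `L¹` of the circle `AddCircle w`: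
`span_fourierLp_closure_eq_top` (p = 1) or `span_fourier_closure_eq_top` with a continuous approximation;
`fourier n` at `t` is `expo (2 π n / w) t`; integrals over the circle are interval integrals
(`AddCircle.intervalIntegral_preimage`). -/
def S_FOU : Prop := ∀ (w a : ℝ), 0 < w → 0 ≤ a → a ≤ 1 → ∀ ε : ℝ, 0 < ε →
  ∃ q ∈ ES (Mw w), (∀ t, q (t + w) = q t) ∧ ∫ t in (0 : ℝ)..w, ‖ind w a t - q t‖ ≤ ε

/-- **IND** (60 lines, hypotheses ES1 PER FOU).  The mean is `w⁻¹ ∫_0^w ind = a`; `app` from FOU with `ε w / 2` and PER, `T ≥ w`. -/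
def S_IND : Prop := ∀ (w a : ℝ), 0 < w → 0 ≤ a → a ≤ 1 → AP (Mw w) (ind w a) ∧ HasMean (ind w a) a

/-- **IRR** (40 lines).  `m / log p = n / log q` with integers `m, n` gives `m log q = n log p`, `q ^ m = p ^ n`. -/
def S_IRR : Prop := ∀ p q : ℕ, p.Prime → q.Prime → p ≠ q → Mw (Real.log p) ⊓ Mw (Real.log q) = ⊥

/-- **WIN** (80 lines).  With `c = ⌊t / log p⌋ ≥ 1`: `p ^ c ≤ e^t < p ^ (c + 1)`; for natural numbers `A`:
`A ≤ ⌊e^t⌋ ↔ A ≤ e^t` and `⌊e^t⌋ < A ↔ e^t < A`.  As `p ^ j + p ^ (j - 1) ≤ p ^ (j + 1)`, only `j = c` is possible, and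
`e^t < p ^ c (1 + 1 / p)` iff `fract (t / log p) < aa p`. -/
def S_WIN : Prop := ∀ p : ℕ, p.Prime → ∀ t : ℝ, Real.log p ≤ t →
  (Bd p ⌊Real.exp t⌋₊ ↔ Int.fract (t / Real.log p) < aa p)

/-- **AAB** (20 lines). -/
def S_AAB : Prop := ∀ p : ℕ, p.Prime → 0 ≤ aa p ∧ aa p ≤ 1 / ((p : ℝ) * Real.log p) ∧ aa p ≤ 1

open scoped Classical in
/-- **LOG** (120 lines).  `∫_{log k}^{log (k+1)}` of the function is `(log (k + 1) - log k) [E k]`, so the integral up to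
`log (x + 1)` is `∑_{k ≤ x} [E k] log (1 + 1 / k)`, and `0 ≤ 1 / k - log (1 + 1 / k) ≤ 1 / k²`; `log (x + 1) / log x → 1`. -/
def S_LOG : Prop := ∀ (E : ℕ → Prop) (m : ℝ),
  HasMean (fun t => if E ⌊Real.exp t⌋₊ then 1 else 0) m → HasLD E m

/-- **HME** (30 lines).  Functions which agree from some point on have the same mean (bounded, measurable). -/
def S_HME : Prop := ∀ (f g : ℝ → ℂ) (t0 : ℝ), Measurable f → Measurable g → (∃ C : ℝ, ∀ t, ‖f t‖ ≤ C) →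
  (∃ C : ℝ, ∀ t, ‖g t‖ ≤ C) → (∀ t, t0 ≤ t → f t = g t) → ∀ m, HasMean f m → HasMean g m

/-- **TAIL** (90 lines).  For `p ^ c ≤ x`: `∑_{p^c ≤ k < p^c + p^(c-1)} 1 / k ≤ 1 / p`; the number of `c` is at most `log x / log p`; so
the sum is at most `log x ∑_{y < p ≤ x} 1 / (p log p)`, and `TLB` bounds the last sum. -/
def S_TAIL : Prop := ∀ ε : ℝ, 0 < ε → ∃ y0 : ℕ, ∀ y, y0 ≤ y → ∀ x : ℕ, 2 ≤ x →
  LS (fun k => ∃ p, p.Prime ∧ y < p ∧ Bd p k) x ≤ ε * Real.log x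

/-- **TLB**: theorem `tl_le` of the library file `Pool/Graph/R_pool_sql_team_seeded_3997aac3/Q58/WCS2/Tail.lean`. -/
def S_TLB : Prop := ∀ ε : ℝ, 0 < ε → ∃ y0 : ℕ, ∀ y, y0 ≤ y → ∀ x : ℕ,
  ∑ p ∈ (Finset.Ioc y x).filter Nat.Prime, 1 / ((p : ℝ) * Real.log p) ≤ ε

/-- **EXC** (100 lines, hypothesis TLB).  `∑_{p ≤ x} 1 / p ≤ y0 + ∑_{y0 < p ≤ x} log x / (p log p) ≤ y0 + ε log x` (`log p ≤ log x`); each
of the three kinds of exceptional `k` is `p - 1`, `2 p` or `2 p + 1`, `2 p` or `2 p - 1` with `1 / k ≤ 2 / p`. -/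
def S_EXC : Prop := ∀ ε : ℝ, 0 < ε → ∃ x0 : ℕ, ∀ x, x0 ≤ x → LS Exc x ≤ ε * Real.log x

/-- the sum of `ell p` over the odd primes (library `ell_sum`) -/
def S_ELL : Prop := ∀ y : ℕ, ∑ p ∈ (Finset.Ioc 2 y).filter Nat.Prime, aa p ≤ 0.95

/-- **NUM** (30 lines).  `aa 2 = log 3 / log 2 - 1`, `aa 3 = log 4 / log 3 - 1`; e.g. `3 ^ 12 ≥ 2 ^ 19`, `3 ^ 17 ≤ 2 ^ 27`, ... -/
def S_NUM : Prop := aa 2 ≤ 0.59 ∧ (1 - aa 2) * (1 - aa 3) ≤ 0.31

/-- **FIN** (120 lines, hypotheses AP1 AP2 AP3 IND WIN AAB LOG HME).  Induction over the primes `≤ y`: the product of the functions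
`1 - ind (log p) (aa p)` is in some class `AP M`, so it has a mean (real, as the averages are real); it agrees for
`t ≥ log y` with the indicator function of `GoodY y ⌊e^t⌋`. -/
def S_FIN : Prop := ∀ y : ℕ, ∃ m : ℝ, HasLD (GoodY y) m

/-- **PAIR** (90 lines, hypotheses AP2 AP3 IND IRR WIN AAB LOG HME).  Independence of two primes. -/
def S_PAIR : Prop := (∀ p : ℕ, p.Prime → p ≠ 2 → HasLD (fun k => ¬ Bd 2 k ∧ Bd p k) ((1 - aa 2) * aa p)) ∧
  HasLD (fun k => ¬ Bd 2 k ∧ ¬ Bd 3 k) ((1 - aa 2) * (1 - aa 3)) ∧ HasLD (fun k => ¬ Bd 2 k) (1 - aa 2)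

/-- **LIM** (80 lines, hypotheses FIN TAIL).  `m_y` is decreasing and nonnegative, so it converges to some `d`;
`GoodY y` minus `Good` is contained in the set of TAIL. -/
def S_LIM : Prop := ∃ d : ℝ, HasLD Good d ∧ ∀ (y : ℕ) (m : ℝ), HasLD (GoodY y) m → d ≤ m

/-- **BND** (80 lines, hypotheses PAIR TAIL ELL NUM AAB).  Upper bound: `Good` implies `¬ Bd 2 ∧ ¬ Bd 3`.  Lower bound: the `k` with `¬ Bd 2 k`
that are not `Good` satisfy `Bd p k` for some odd prime `p`: those with `p ≤ y` have density at most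
`∑ (1 - aa 2) aa p ≤ 0.95 (1 - aa 2)`, the others by TAIL at most `ε`; so
`d ≥ (1 - aa 2) (1 - 0.95) ≥ 0.41 * 0.05`. -/
def S_BND : Prop := ∀ d : ℝ, HasLD Good d → 0.02 ≤ d ∧ d ≤ 0.31

/-- **DIF** (40 lines).  Sets which differ (from some point on) only in exceptional elements have the same density. -/
def S_DIF : Prop := (∀ ε : ℝ, 0 < ε → ∃ x0 : ℕ, ∀ x, x0 ≤ x → LS Exc x ≤ ε * Real.log x) → ∀ (E F : ℕ → Prop) (K : ℕ),
  (∀ k, K ≤ k → E k → F k) → (∀ k, K ≤ k → F k → ¬ Exc k → E k) → ∀ d, HasLD F d → HasLD E d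

end Pool.Agent.H6.LD
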