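import Pool.Graph.R_pool_sql_team_seeded_3997aac3.Results.MP_d5a689_co.ExactlyTwo
import Pool.Agent.H6.LD.Stm

/-! # Crew LD: structure of the lengths with exactly two weakly consecutive permutations -/

set_option autoImplicit false

namespace Pool.Agent.H6.LD.STR

open Pool.Agent.Results.MP_a4c3d5_co.SmallTerms Pool.Agent.Q58.WCS
open Pool.Agent.Results.MP_d5a689_co.ExactlyTwo

lemma two_wcs' {k : ℕ} (hk : 24 ≤ k) (hex : ¬ Pool.Agent.H6.LD.Exc k)
    (hg : Pool.Agent.Q58.WCS2.Good k) {σ : ℕ → ℕ} (h : IsWCS k σ) :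
    (∀ i, 1 ≤ i → i ≤ k → σ i = i) ∨ (∀ i, 1 ≤ i → i ≤ k → σ i = k + 1 - i) := by
  obtain ⟨s, l, f, h1, -, h2⟩ := exists_derivation (by omega) h
  have hav : s.Available k := by
    clear h2
    induction h1 with
    | start h => exact h
    | step r _ _ ih => exact ih
  have h3 : (∀ i, 1 ≤ i → i ≤ k → f i = i) ∨ (∀ i, 1 ≤ i → i ≤ k → f i = k + 1 - i) := by
    cases s with
    | consecutive => exact two_forms hg (by decide) (fun _ _ _ => rfl) h1
    | inversion => exact (hex (Or.inl hav)).elim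
    | twiceTwin =>
      exfalso
      obtain ⟨p, hp, -, hkp⟩ := hav
      apply hex
      right; left
      have : k / 2 = p := by omega
      rw [this]
      exact hp
    | sophie =>
      exfalso
      obtain ⟨p, hp, -, -, hkp⟩ := hav
      apply hex
      right; right
      have : (k + 1) / 2 = p := by omega
      rw [this]
      exact hp
    | twiceTwinInversion =>
      exfalso
      obtain ⟨p, hp, -, -, hkp⟩ := hav
      apply hex
      right; left
      have : k / 2 = p := by omega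
      rw [this]
      exact hp
  rcases h3 with h3 | h3
  · left
    intro i hi1 hi2
    rw [← h2 i hi1 hi2, h3 i hi1 hi2]
  · right
    intro i hi1 hi2
    rw [← h2 i hi1 hi2, h3 i hi1 hi2]

lemma one_mem (k : ℕ) : (1 : Equiv.Perm (Fin k)) ∈ WCP k := by
  intro i j m _ _ h1 h2
  simp only [Equiv.Perm.coe_one, id_eq] at h1 ⊢
  have h3 : (m : ℤ) ∣ (((i : ℕ) + 1 : ℕ) : ℤ) := by exact_mod_cast h1
  have h4 : (((j : ℕ) + 1 : ℕ) : ℤ) = (((i : ℕ) + 1 : ℕ) : ℤ) -
      ((((i : ℕ) + 1 : ℕ) : ℤ) - (((j : ℕ) + 1 : ℕ) : ℤ)) := by ring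
  have h5 : (m : ℤ) ∣ (((j : ℕ) + 1 : ℕ) : ℤ) := by
    rw [h4]
    exact dvd_sub h3 h2
  exact_mod_cast h5

lemma rev_mem (k : ℕ) : (Fin.revPerm : Equiv.Perm (Fin k)) ∈ WCP k := by
  intro i j m _ _ h1 h2
  rw [Fin.revPerm_apply, Fin.val_rev] at h1 ⊢
  have hi := i.isLt
  have hj := j.isLt
  have h3 : (m : ℤ) ∣ ((k - ((i : ℕ) + 1) + 1 : ℕ) : ℤ) := by exact_mod_cast h1
  have h4 : ((k - ((j : ℕ) + 1) + 1 : ℕ) : ℤ) = ((k - ((i : ℕ) + 1) + 1 : ℕ) : ℤ) +
      ((((i : ℕ) + 1 : ℕ) : ℤ) - (((j : ℕ) + 1 : ℕ) : ℤ)) := by omega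
  have h5 : (m : ℤ) ∣ ((k - ((j : ℕ) + 1) + 1 : ℕ) : ℤ) := by
    rw [h4]
    exact dvd_add h3 h2
  exact_mod_cast h5

lemma rev_ne {k : ℕ} (hk : 2 ≤ k) : (1 : Equiv.Perm (Fin k)) ≠ Fin.revPerm := by
  intro h
  have h1 := congrArg (fun π : Equiv.Perm (Fin k) => ((π ⟨0, by omega⟩ : Fin k) : ℕ)) h
  simp only [Equiv.Perm.coe_one, id_eq, Fin.revPerm_apply, Fin.val_rev] at h1
  omega

theorem numWCS_two' {k : ℕ} (hk : 24 ≤ k) (hex : ¬ Pool.Agent.H6.LD.Exc k)
    (hg : Pool.Agent.Q58.WCS2.Good k) : numWCS k = 2 := by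
  have hset : WCP k = {1, Fin.revPerm} := by
    ext π
    rw [Set.mem_insert_iff, Set.mem_singleton_iff]
    constructor
    · intro h
      rcases two_wcs' hk hex hg (isWCS_toFun h) with h1 | h1
      · left
        ext i
        have hi := i.isLt
        have h2 := h1 ((i : ℕ) + 1) (by omega) (by omega)
        rw [toFun_apply] at h2
        simp only [Equiv.Perm.coe_one, id_eq]
        omega
      · right
        ext i
        have hi := i.isLt
        have h2 := h1 ((i : ℕ) + 1) (by omega) (by omega)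
        rw [toFun_apply] at h2
        rw [Fin.revPerm_apply, Fin.val_rev]
        omega
    · rintro (rfl | rfl)
      · exact one_mem k
      · exact rev_mem k
  rw [numWCS, hset, Set.ncard_pair (rev_ne (by omega))]

/-- the exchange of `p^(j-1)` and `p^j` -/
lemma swap_mem {k p j : ℕ} (hp : p.Prime) (hj : 1 ≤ j) (h1 : p ^ j ≤ k) (h2 : k < p ^ j + p ^ (j - 1)) :
    ∃ a b : Fin k, (a : ℕ) + 1 = p ^ (j - 1) ∧ (b : ℕ) + 1 = p ^ j ∧ Equiv.swap a b ∈ WCP k := by
  have hpos : 0 < p ^ (j - 1) := pow_pos hp.pos _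
  have hlt : p ^ (j - 1) < p ^ j := Nat.pow_lt_pow_right hp.one_lt (by omega)
  have hdiv : p ^ (j - 1) ∣ p ^ j := pow_dvd_pow p (by omega)
  refine ⟨⟨p ^ (j - 1) - 1, by omega⟩, ⟨p ^ j - 1, by omega⟩, by simp only; omega, by simp only; omega, ?_⟩
  set a : Fin k := ⟨p ^ (j - 1) - 1, by omega⟩ with ha
  set b : Fin k := ⟨p ^ j - 1, by omega⟩ with hb
  have ha1 : (a : ℕ) + 1 = p ^ (j - 1) := by rw [ha]; simp only; omega
  have hb1 : (b : ℕ) + 1 = p ^ j := by rw [hb]; simp only; omega
  intro x y m hm1 hmk h3 h4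
  by_cases hm : m = p ^ j
  · subst hm
    -- `x = a`
    have hx : Equiv.swap a b x = b := by
      have h5 := (Equiv.swap a b x).isLt
      obtain ⟨c, hc⟩ := h3
      have hc1 : c = 1 := by
        rcases Nat.lt_or_ge c 1 with h | h
        · have : c = 0 := by omega
          subst this
          omega
        · rcases Nat.lt_or_ge 1 c with h' | h'
          · exfalso
            have : p ^ j * 2 ≤ p ^ j * c := Nat.mul_le_mul_left _ h'
            omega
          · omega
      rw [hc1, mul_one] at hc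
      apply Fin.ext
      omega
    have hxa : x = a := by
      have h5 := congrArg (Equiv.swap a b) hx
      rwa [Equiv.swap_apply_self, Equiv.swap_apply_right] at h5
    subst hxa
    have hy : y = a := by
      have hyk := y.isLt
      apply Fin.ext
      obtain ⟨c, hc⟩ := h4
      have hc0 : c = 0 := by
        by_contra hne
        have hb0 : (0 : ℤ) < (p : ℤ) ^ j := by
          have := pow_pos hp.pos j
          exact_mod_cast this
        rcases lt_or_gt_of_ne hne with hlt' | hgt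
        · have h6 : ((p ^ j : ℕ) : ℤ) * c ≤ -((p ^ j : ℕ) : ℤ) := by
            push_cast
            nlinarith
          omega
        · have h6 : ((p ^ j : ℕ) : ℤ) ≤ ((p ^ j : ℕ) : ℤ) * c := by
            push_cast
            nlinarith
          omega
      rw [hc0, mul_zero] at hc
      omega
    rw [hy, Equiv.swap_apply_left, hb1]
  · -- `m ∣ a + 1 ↔ m ∣ b + 1`
    have hab : m ∣ (a : ℕ) + 1 ↔ m ∣ (b : ℕ) + 1 := by
      rw [ha1, hb1]
      constructor
      · intro h
        exact h.trans hdiv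
      · intro h
        obtain ⟨i, hi, hmi⟩ := (Nat.dvd_prime_pow hp).1 h
        subst hmi
        have : i ≠ j := fun h => hm (by rw [h])
        exact pow_dvd_pow p (by omega)
    have hsw : ∀ z : Fin k, m ∣ (Equiv.swap a b z : ℕ) + 1 ↔ m ∣ (z : ℕ) + 1 := by
      intro z
      by_cases hza : z = a
      · rw [hza, Equiv.swap_apply_left]
        exact hab.symm
      · by_cases hzb : z = b
        · rw [hzb, Equiv.swap_apply_right]
          exact hab
        · rw [Equiv.swap_apply_of_ne_of_ne hza hzb]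
    rw [hsw] at h3 ⊢
    have h5 : (m : ℤ) ∣ (((x : ℕ) + 1 : ℕ) : ℤ) := by exact_mod_cast h3
    have h6 : (((y : ℕ) + 1 : ℕ) : ℤ) = (((x : ℕ) + 1 : ℕ) : ℤ) -
        ((((x : ℕ) + 1 : ℕ) : ℤ) - (((y : ℕ) + 1 : ℕ) : ℤ)) := by ring
    have h7 : (m : ℤ) ∣ (((y : ℕ) + 1 : ℕ) : ℤ) := by
      rw [h6]
      exact dvd_sub h5 h4
    exact_mod_cast h7

theorem three {k : ℕ} (hk : 4 ≤ k) (hg : ¬ Pool.Agent.Q58.WCS2.Good k) : numWCS k ≠ 2 := by
  intro h
  unfold Pool.Agent.Q58.WCS2.Good at hg
  push Not at hg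
  obtain ⟨p, hp, j, hj, h1, h2⟩ := hg
  obtain ⟨a, b, ha, hb, hmem⟩ := swap_mem hp hj h1 h2
  have hpos : 0 < p ^ (j - 1) := pow_pos hp.pos _
  have hlt : p ^ (j - 1) < p ^ j := Nat.pow_lt_pow_right hp.one_lt (by omega)
  have hab : a ≠ b := by
    intro h
    rw [h] at ha
    omega
  have hn1 : Equiv.swap a b ≠ 1 := by
    intro h
    exact hab (Equiv.swap_eq_one_iff.1 h)
  have hn2 : Equiv.swap a b ≠ Fin.revPerm := by
    intro h
    -- a third point which is moved by the reversal
    have hcard : ({a, b} : Finset (Fin k)).card ≤ 2 := Finset.card_le_two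
    have hex : ∃ c : Fin k, c ≠ a ∧ c ≠ b ∧ 2 * (c : ℕ) + 1 ≠ k := by
      by_contra hcon
      push Not at hcon
      have hsub : (Finset.univ : Finset (Fin k)) ⊆ {a, b, ⟨(k - 1) / 2, by omega⟩} := by
        intro c _
        simp only [Finset.mem_insert, Finset.mem_singleton]
        by_cases h1 : c = a
        · exact Or.inl h1
        · by_cases h2 : c = b
          · exact Or.inr (Or.inl h2)
          · right; right
            have h3 := hcon c h1 h2
            apply Fin.ext
            simp only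
            omega
      have h4 := Finset.card_le_card hsub
      rw [Finset.card_univ, Fintype.card_fin] at h4
      have h5 := Finset.card_le_three (a := a) (b := b) (c := (⟨(k - 1) / 2, by omega⟩ : Fin k))
      omega
    obtain ⟨c, hca, hcb, hc⟩ := hex
    have h3 := congrArg (fun π : Equiv.Perm (Fin k) => ((π c : Fin k) : ℕ)) h
    simp only [Fin.revPerm_apply, Fin.val_rev] at h3
    rw [Equiv.swap_apply_of_ne_of_ne hca hcb] at h3
    have := c.isLt
    omega
  have hsub : ({1, Fin.revPerm, Equiv.swap a b} : Set (Equiv.Perm (Fin k))) ⊆ WCP k := by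
    intro π hπ
    rcases hπ with rfl | rfl | rfl
    · exact one_mem k
    · exact rev_mem k
    · exact hmem
  have h3 := Set.ncard_le_ncard hsub (Set.toFinite _)
  have h4 : ({1, Fin.revPerm, Equiv.swap a b} : Set (Equiv.Perm (Fin k))).ncard = 3 := by
    rw [Set.ncard_eq_three]
    exact ⟨1, Fin.revPerm, Equiv.swap a b, rev_ne (by omega), hn1.symm, hn2.symm, rfl⟩
  unfold numWCS at h
  omega

theorem t_STR : ∀ k, 24 ≤ k →
    (k ∈ A → Pool.Agent.H6.LD.Good k) ∧
    (Pool.Agent.H6.LD.Good k → ¬ Pool.Agent.H6.LD.Exc k → k ∈ A) := by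
  intro k hk
  constructor
  · intro h
    by_contra hg
    exact three (by omega) hg h.2
  · intro hg hex
    exact ⟨by omega, numWCS_two' hk hex hg⟩

end Pool.Agent.H6.LD.STR
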